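import Mathlib
import Pool.Agent.R522.TP.Base

set_option autoImplicit false

/-!
# Balanced tripartite graphs of minimum degree `n + t` with fewer than `4 t ^ 3` triangles

A graph `G_3(10)` with minimum degree `12` and `30 < 4 * 2 ^ 3` triangles, and its blow-ups.
-/

namespace Pool.Agent.Results.MP_e2add3_co.FewerTriangles

/-- `G` is a graph `G_3(n)`: its vertices are the pairs `(c, i)`, `c < 3`, `i < n`; the three classes
`c = 0, 1, 2` have `n` elements each, and all edges join different classes. -/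
def IsG3 {n : ℕ} (G : SimpleGraph (Fin 3 × Fin n)) : Prop := ∀ u v, G.Adj u v → u.1 ≠ v.1

/-- the minimum degree of `G` is at least `d` -/
def MinDegGe {n : ℕ} (G : SimpleGraph (Fin 3 × Fin n)) (d : ℕ) : Prop :=
  ∀ v, d ≤ (G.neighborSet v).ncard

/-- the number of triangles of `G` -/
noncomputable def k3 {n : ℕ} (G : SimpleGraph (Fin 3 × Fin n)) : ℕ :=
  {s : Finset (Fin 3 × Fin n) | G.IsNClique 3 s}.ncard

/-- **The conjecture `m(n, t) = 4 t ^ 3` for `n ≥ 5 t` is false.** There are `t ≥ 1`, `n ≥ 5 t` and a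
graph `G_3(n)` of minimum degree at least `n + t` with fewer than `4 t ^ 3` triangles. More precisely,
for every `k ≥ 1` there is a `G_3(10 k)` of minimum degree at least `10 k + 2 k` with at most `30 k ^ 3`
triangles, which is less than `4 (2 k) ^ 3`. -/
theorem result :
    (∃ t n : ℕ, 1 ≤ t ∧ 5 * t ≤ n ∧ ∃ G : SimpleGraph (Fin 3 × Fin n),
      IsG3 G ∧ MinDegGe G (n + t) ∧ k3 G < 4 * t ^ 3) ∧
    ∀ k : ℕ, 1 ≤ k → ∃ G : SimpleGraph (Fin 3 × Fin (10 * k)),
      IsG3 G ∧ MinDegGe G (10 * k + 2 * k) ∧ k3 G ≤ 30 * k ^ 3 ∧ k3 G < 4 * (2 * k) ^ 3 := by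
  have h : ∀ k : ℕ, 1 ≤ k → ∃ G : SimpleGraph (Fin 3 × Fin (10 * k)),
      IsG3 G ∧ MinDegGe G (10 * k + 2 * k) ∧ k3 G ≤ 30 * k ^ 3 ∧ k3 G < 4 * (2 * k) ^ 3 := by
    intro k hk
    refine ⟨Pool.Agent.R522.TP.blow k, Pool.Agent.R522.TP.blow_class k, fun v => ?_,
      Pool.Agent.R522.TP.blow_tri k, ?_⟩
    · have := Pool.Agent.R522.TP.blow_deg k v
      omega
    · have h1 := Pool.Agent.R522.TP.blow_tri k
      have h2 : 0 < k ^ 3 := Nat.pow_pos hk
      have h3 : 4 * (2 * k) ^ 3 = 32 * k ^ 3 := by ring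
      unfold k3
      omega
  refine ⟨⟨2, 10, by norm_num, by norm_num, ?_⟩, h⟩
  obtain ⟨G, h1, h2, h3, h4⟩ := h 1 le_rfl
  exact ⟨G, h1, h2, h4⟩

end Pool.Agent.Results.MP_e2add3_co.FewerTriangles
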